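import Pool.Agent.Work.MP_9e6733_nt.Final

/-! The final inequality with real numbers. -/

namespace Pool.Agent.Work.MP_9e6733_nt

open Filter

lemma asym : ∀ᶠ x : ℝ in atTop,
    2 + 6 * (Real.log (x + 1) + 2) + 2 ≤ (1 / 80000 : ℝ) * (x / Real.log x) := by
  have h1 : (fun x : ℝ => Real.log x ^ 2) =o[atTop] (id : ℝ → ℝ) := Real.isLittleO_pow_log_id_atTop
  have h2 := h1.bound (show (0 : ℝ) < 1 / 5000000 by norm_num)
  filter_upwards [h2, eventually_ge_atTop (1000 : ℝ)] with x hx hx1000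
  have hlog : 1 ≤ Real.log x := by
    rw [Real.le_log_iff_exp_le (by linarith)]
    have := Real.exp_one_lt_d9
    linarith
  have hpos : 0 < Real.log x := by linarith
  have h3 : Real.log (x + 1) ≤ 2 * Real.log x := by
    have : Real.log (x + 1) ≤ Real.log (x ^ 2) :=
      Real.log_le_log (by linarith) (by nlinarith)
    rw [Real.log_pow] at this
    simpa using this
  rw [Real.norm_eq_abs, Real.norm_eq_abs, id, abs_of_nonneg (by positivity),
    abs_of_nonneg (by linarith)] at hx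
  have h4 : 60 * Real.log x ≤ (1 / 80000 : ℝ) * (x / Real.log x) := by
    rw [mul_div_assoc', le_div_iff₀ hpos]
    nlinarith
  nlinarith

lemma final_bound (B : ℕ → ℕ) (h0 : B 0 = 1) (hs : ∀ n, B (n + 1) = B n + B ((n + 1) / 2)) :
    ∃ X : ℝ, ∀ x : ℝ, X ≤ x →
      ({n : ℕ | (n : ℝ) ≤ x ∧ S2 (B n)}.ncard : ℝ) ≤ x / 2 - (1 / 80000) * (x / Real.log x) := by
  obtain ⟨X0, hX0⟩ := eventually_atTop.mp asym
  refine ⟨max X0 1000, fun x hx => ?_⟩
  have hx1 : (1000 : ℝ) ≤ x := le_trans (le_max_right _ _) hx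
  have hA := hX0 x (le_trans (le_max_left _ _) hx)
  obtain ⟨N, hN⟩ : ∃ N, N = ⌊x⌋₊ + 1 := ⟨_, rfl⟩
  have hNx : (N : ℝ) ≤ x + 1 := by
    rw [hN]; push_cast
    have := Nat.floor_le (show (0 : ℝ) ≤ x by linarith)
    linarith
  have hxN : x < N := by
    rw [hN]; push_cast; exact Nat.lt_floor_add_one x
  have hN1000 : 1000 < N := by
    have : (1000 : ℝ) < N := by linarith
    exact_mod_cast this
  have hset : {n : ℕ | (n : ℝ) ≤ x ∧ S2 (B n)} = {n : ℕ | n < N ∧ S2 (B n)} := by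
    ext n
    constructor
    · rintro ⟨h1, h2⟩
      refine ⟨?_, h2⟩
      rw [hN]
      have := Nat.le_floor h1
      omega
    · rintro ⟨h1, h2⟩
      refine ⟨?_, h2⟩
      rw [hN] at h1
      have h3 : n ≤ ⌊x⌋₊ := by omega
      exact (Nat.le_floor_iff (by linarith)).mp h3
  rw [hset]
  have hc := count_le B h0 hs N
  have hl := cB_low' B h0 hs N
  -- the parameter r
  have hlog2 : 9 ≤ Nat.log 2 N := by
    rw [Nat.le_log_iff_pow_le (by norm_num) (by omega)]
    norm_num; omega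
  obtain ⟨r, hr⟩ : ∃ r, Nat.log 2 N = r + 8 := ⟨Nat.log 2 N - 8, by omega⟩
  have hp1 : 2 ^ (r + 8) ≤ N := by rw [← hr]; exact Nat.pow_log_le_self 2 (by omega)
  have hp2 : N < 2 ^ (r + 9) := by
    have := Nat.lt_pow_succ_log_self (b := 2) (by norm_num) N
    rwa [hr] at this
  have hG := GG_low' B h0 hs r N hp1
  -- real logs
  have hNpos : (0 : ℝ) < N := by linarith
  have hL0 : 0 < Real.log x := Real.log_pos (by linarith)
  have hlogN : 0 < Real.log N := Real.log_pos (by linarith)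
  have hlog4 : (Nat.log 4 N : ℝ) ≤ Real.log N := by
    have h1 : (4 : ℝ) ^ (Nat.log 4 N) ≤ N := by exact_mod_cast Nat.pow_log_le_self 4 (by omega)
    have h2 := Real.log_le_log (by positivity) h1
    rw [Real.log_pow] at h2
    have h3 : (1 : ℝ) ≤ Real.log 4 := by
      rw [Real.le_log_iff_exp_le (by norm_num)]
      have := Real.exp_one_lt_d9
      linarith
    have h4 : (0 : ℝ) ≤ Nat.log 4 N := Nat.cast_nonneg _
    nlinarith
  have hrlog : ((r : ℝ) + 8) * (1 / 2) ≤ Real.log N := by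
    have h1 : (2 : ℝ) ^ (r + 8) ≤ N := by exact_mod_cast hp1
    have h2 := Real.log_le_log (by positivity) h1
    rw [Real.log_pow] at h2
    have h3 := Real.log_two_gt_d9
    push_cast at h2
    have h4 : (0 : ℝ) ≤ r := Nat.cast_nonneg _
    nlinarith
  have hNN : Real.log N ≤ Real.log (x + 1) := Real.log_le_log hNpos hNx
  have hx2 : Real.log (x + 1) ≤ 2 * Real.log x := by
    have : Real.log (x + 1) ≤ Real.log (x ^ 2) :=
      Real.log_le_log (by linarith) (by nlinarith)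
    rw [Real.log_pow] at this
    simpa using this
  -- lower bound for the good indices
  have hGr : (N : ℝ) ≤ 512 * ((r + 1) * (1 + 16 * ((GG B N).card : ℝ))) := by
    have h1 : (2 : ℝ) ^ r ≤ (r + 1) * (1 + 16 * ((GG B N).card : ℝ)) := by exact_mod_cast hG
    have h2 : (N : ℝ) ≤ 2 ^ (r + 9) := by exact_mod_cast hp2.le
    have h3 : (2 : ℝ) ^ (r + 9) = 512 * 2 ^ r := by rw [pow_add]; norm_num; ring
    rw [h3] at h2
    linarith
  have hg0 : (0 : ℝ) ≤ (GG B N).card := Nat.cast_nonneg _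
  have hr1 : (r : ℝ) + 1 ≤ 4 * Real.log x := by linarith
  have hGx : (1 / 40000 : ℝ) * (x / Real.log x) ≤ 1 + ((GG B N).card : ℝ) := by
    rw [mul_div_assoc', div_le_iff₀ hL0]
    have h1 : ((r : ℝ) + 1) * (1 + 16 * ((GG B N).card : ℝ)) ≤
        4 * Real.log x * (16 * (1 + ((GG B N).card : ℝ))) := by
      apply mul_le_mul hr1 (by linarith) (by linarith) (by linarith)
    nlinarith
  have hc' : (({n : ℕ | n < N ∧ S2 (B n)}.ncard : ℕ) : ℝ) + ((cB B N : ℝ) + ((GG B N).card : ℝ))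
      ≤ N := by exact_mod_cast hc
  have hl' : (N : ℝ) ≤ 2 * (cB B N : ℝ) + 12 * ((Nat.log 4 N : ℝ) + 1) + 3 := by
    exact_mod_cast hl
  linarith

end Pool.Agent.Work.MP_9e6733_nt
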