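import Pool.Agent.Work.MP_9e6733_nt.Two

/-! Counting the 2-adically excluded indices. -/

namespace Pool.Agent.Work.MP_9e6733_nt

open Finset

/-- indicator of the 2-adic obstruction -/
def gB (B : ℕ → ℕ) (n : ℕ) : ℕ := if Bad (B n) then 1 else 0

/-- number of `n < N` with the 2-adic obstruction -/
def cB (B : ℕ → ℕ) (N : ℕ) : ℕ := ∑ n ∈ range N, gB B n

lemma cB_mono (B : ℕ → ℕ) {M N : ℕ} (h : M ≤ N) : cB B M ≤ cB B N :=
  Finset.sum_le_sum_of_subset (range_mono h)

section
variable (B : ℕ → ℕ) (h0 : B 0 = 1) (hs : ∀ n, B (n + 1) = B n + B ((n + 1) / 2))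
include h0 hs

lemma g13 (i : ℕ) : gB B (4 * i + 1) + gB B (4 * i + 3) = 1 := by
  unfold gB
  simp only [bad_one B h0 hs i, bad_three B h0 hs i]
  rcases tm_pm i with h | h <;> simp [h]

lemma g2 (M : ℕ) : gB B (4 * (4 * M) + 2) + gB B (4 * (4 * M + 1) + 2) +
    gB B (4 * (4 * M + 2) + 2) + gB B (4 * (4 * M + 3) + 2) = 2 := by
  unfold gB
  simp only [bad_two_even B h0 hs (4 * M) (by omega), bad_two_odd B h0 hs (4 * M + 1) (by omega),
    bad_two_even B h0 hs (4 * M + 2) (by omega), bad_two_odd B h0 hs (4 * M + 3) (by omega)]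
  have e0 : tm (4 * M) = tm M := by
    have : 4 * M = 2 * (2 * M) := by ring
    rw [this, tm_even, tm_even]
  have e1 : tm (4 * M + 1) = - tm M := by
    have : 4 * M + 1 = 2 * (2 * M) + 1 := by ring
    rw [this, tm_odd, tm_even]
  have e2 : tm (4 * M + 2) = - tm M := by
    have : 4 * M + 2 = 2 * (2 * M + 1) := by ring
    rw [this, tm_even, tm_odd]
  have e3 : tm (4 * M + 3) = tm M := by
    have : 4 * M + 3 = 2 * (2 * M + 1) + 1 := by ring
    rw [this, tm_odd, tm_odd, neg_neg]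
  rw [e0, e1, e2, e3]
  rcases tm_pm M with h | h <;> simp [h]

lemma g4 (i : ℕ) : gB B (4 * i) = gB B i := by
  rcases Nat.eq_zero_or_pos i with rfl | hi
  · rfl
  · unfold gB
    simp only [bad_four B h0 hs i hi]

lemma cB_sixteen (M : ℕ) : cB B (16 * M) = 6 * M + cB B (4 * M) := by
  induction M with
  | zero => simp [cB]
  | succ M ih =>
    have a1 := g13 B h0 hs (4 * M)
    have a2 := g13 B h0 hs (4 * M + 1)
    have a3 := g13 B h0 hs (4 * M + 2)
    have a4 := g13 B h0 hs (4 * M + 3)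
    have a5 := g2 B h0 hs M
    have b1 := g4 B h0 hs (4 * M)
    have b2 := g4 B h0 hs (4 * M + 1)
    have b3 := g4 B h0 hs (4 * M + 2)
    have b4 := g4 B h0 hs (4 * M + 3)
    have e1 : 16 * (M + 1) = 16 * M + 16 := by ring
    have e2 : 4 * (M + 1) = 4 * M + 4 := by ring
    rw [e1, e2]
    unfold cB at *
    simp only [Finset.sum_range_succ] at *
    simp only [mul_add, ← mul_assoc, Nat.reduceMul, add_assoc, Nat.reduceAdd] at *
    omega

lemma cB_low (M : ℕ) : 2 * M ≤ cB B (4 * M) + 6 * (Nat.log 4 M + 1) := by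
  induction M using Nat.strong_induction_on with
  | _ M ih =>
    by_cases hM : M < 4
    · omega
    · have h1 := ih (M / 4) (by omega)
      have h2 := cB_sixteen B h0 hs (M / 4)
      have h3 : cB B (16 * (M / 4)) ≤ cB B (4 * M) := cB_mono B (by omega)
      have h4 : Nat.log 4 M = Nat.log 4 (M / 4) + 1 :=
        Nat.log_of_one_lt_of_le (by norm_num) (by omega)
      omega

lemma cB_low' (N : ℕ) : N ≤ 2 * cB B N + 12 * (Nat.log 4 N + 1) + 3 := by
  have h1 := cB_low B h0 hs (N / 4)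
  have h3 : cB B (4 * (N / 4)) ≤ cB B N := cB_mono B (by omega)
  have h4 : Nat.log 4 (N / 4) ≤ Nat.log 4 N := Nat.log_mono_right (by omega)
  omega

end

end Pool.Agent.Work.MP_9e6733_nt
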