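import Pool.Agent.Work.MP_9e6733_nt.Search

/-! Soundness of the search and its consequence. -/

namespace Pool.Agent.Work.MP_9e6733_nt

def SgL (a : ℕ) : List Bool → Prop
  | [] => True
  | s :: ss => (tm a = if s then 1 else -1) ∧ SgL (a + 1) ss

def SndL (B : ℕ → ℕ) (a : ℕ) : List Bool → Prop
  | [] => True
  | b :: bs => (b = true → ¬ Bad (B a)) ∧ SndL B (a + 1) bs

def RowL (B : ℕ → ℕ) (u a : ℕ) : List ℕ → Prop
  | [] => True
  | v :: vs => v = (u * B a) % 9 ∧ RowL B u (a + 1) vs

def MsL (B : ℕ → ℕ) (a : ℕ) : List (List Bool) → Prop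
  | [] => True
  | m :: ms => SndL B (2 * a) m ∧ MsL B (2 * a) ms

/-- good places -/
def Gd (B : ℕ → ℕ) (u j : ℕ) : Prop := ¬ Bad (B j) ∧ ((u * B j) % 9 = 3 ∨ (u * B j) % 9 = 6)

section
variable (B : ℕ → ℕ) (h0 : B 0 = 1) (hs : ∀ n, B (n + 1) = B n + B ((n + 1) / 2)) (u : ℕ)

lemma hitL_sound (m : List Bool) : ∀ (a : ℕ) (row : List ℕ), SndL B a m → RowL B u a row →
    hitL m row = true → ∃ j, a ≤ j ∧ j < a + row.length ∧ Gd B u j := by
  induction m with
  | nil => intro a row _ _ h; simp [hitL] at h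
  | cons b ms ih =>
    intro a row hm hr h
    cases row with
    | nil => cases b <;> simp [hitL] at h
    | cons v vs =>
      obtain ⟨hm1, hm2⟩ := hm
      obtain ⟨hr1, hr2⟩ := hr
      have key : hitL ms vs = true → ∃ j, a ≤ j ∧ j < a + (v :: vs).length ∧ Gd B u j := by
        intro h2
        obtain ⟨j, h3, h4, h5⟩ := ih (a + 1) vs hm2 hr2 h2
        exact ⟨j, by omega, by simp only [List.length_cons]; omega, h5⟩
      cases b with
      | false => exact key (by simpa [hitL] using h)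
      | true =>
        rw [hitL, Bool.or_eq_true, Bool.or_eq_true, beq_iff_eq, beq_iff_eq] at h
        rcases h with h | h
        · exact ⟨a, le_rfl, by simp, hm1 rfl, by rw [← hr1]; exact h⟩
        · exact key h

include hs in
lemma stp_sound (row : List ℕ) : ∀ (a c : ℕ), RowL B u a row → c = (u * B (2 * a)) % 9 →
    RowL B u (2 * a) (stp c row) := by
  induction row with
  | nil => intro a c _ _; simp [stp, RowL]
  | cons p ps ih =>
    intro a c hr hc
    obtain ⟨hr1, hr2⟩ := hr
    have e1 : B (2 * a + 1) = B (2 * a) + B a := by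
      rw [hs]; congr 2; omega
    have e2 : (c + p) % 9 = (u * B (2 * a + 1)) % 9 := by
      rw [hc, hr1, e1, mul_add]; exact (Nat.add_mod _ _ _).symm
    cases ps with
    | nil => exact ⟨hc, e2, trivial⟩
    | cons q qs =>
      refine ⟨hc, e2, ?_⟩
      have e3 : 2 * a + 1 + 1 = 2 * (a + 1) := by ring
      rw [e3]
      apply ih (a + 1) _ hr2
      obtain ⟨hq, _⟩ := hr2
      have e4 : B (2 * (a + 1)) = B (2 * a + 1) + B (a + 1) := by
        rw [← e3, hs]; congr 2; omega
      rw [e4, mul_add]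
      omega

lemma stp_length (row : List ℕ) : ∀ c : ℕ, (stp c row).length = 2 * row.length := by
  induction row with
  | nil => intro c; simp [stp]
  | cons p ps ih =>
    intro c
    cases ps with
    | nil => simp [stp]
    | cons q qs => simp only [stp, List.length_cons, ih]; ring

include hs in
lemma srch_sound (ms : List (List Bool)) : ∀ (a : ℕ) (row : List ℕ), MsL B a ms →
    RowL B u a row → srch ms row = true →
    ∃ i j, i ≤ ms.length ∧ 2 ^ i * a ≤ j ∧ j < 2 ^ i * (a + row.length) ∧ Gd B u j := by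
  induction ms with
  | nil => intro a row _ _ h; simp [srch] at h
  | cons m ms ih =>
    intro a row hm hr h
    obtain ⟨hm1, hm2⟩ := hm
    rw [srch, List.all_eq_true] at h
    have h1 := h ((u * B (2 * a)) % 9) (by rw [List.mem_range]; omega)
    have h2 := stp_sound B hs u row a _ hr rfl
    rw [Bool.or_eq_true] at h1
    rcases h1 with h1 | h1
    · obtain ⟨j, h3, h4, h5⟩ := hitL_sound B u m _ _ hm1 h2 h1
      rw [stp_length] at h4
      refine ⟨1, j, by simp, by omega, by omega, h5⟩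
    · obtain ⟨i, j, h3, h4, h5, h6⟩ := ih _ _ hm2 h2 h1
      rw [stp_length] at h5
      refine ⟨i + 1, j, by simpa using h3, ?_, ?_, h6⟩
      · rw [pow_succ]; nlinarith
      · rw [pow_succ]; nlinarith

lemma sgs_sound (σ : Bool) (k : ℕ) : ∀ a, tm a = (if σ then 1 else -1) →
    SgL (2 ^ k * a) (sgs σ k) := by
  have step : ∀ (l : List Bool) (a : ℕ), SgL a l → SgL (2 * a) (l.flatMap fun b => [b, !b]) := by
    intro l
    induction l with
    | nil => intro a _; trivial
    | cons b l ih =>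
      intro a h
      obtain ⟨h1, h2⟩ := h
      refine ⟨by rw [tm_even]; exact h1, ?_, ?_⟩
      · rw [tm_odd, h1]; cases b <;> simp
      · have := ih (a + 1) h2
        have e : 2 * (a + 1) = 2 * a + 1 + 1 := by ring
        rw [e] at this
        exact this
  intro a h
  induction k with
  | zero => rw [pow_zero, one_mul]; exact ⟨h, trivial⟩
  | succ k ih =>
    have e : 2 ^ (k + 1) * a = 2 * (2 ^ k * a) := by rw [pow_succ]; ring
    rw [e]
    exact step _ _ ih

include h0 hs in
lemma mk3_sound (ss : List Bool) : ∀ (a : ℕ) (e : Bool), SgL a ss → (e = true ↔ a % 2 = 0) →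
    SndL B (4 * a) (mk3 ss e) := by
  induction ss with
  | nil => intro a e _ _; trivial
  | cons s ss ih =>
    intro a e h he
    obtain ⟨h1, h2⟩ := h
    refine ⟨by simp, ?_, ?_, ?_, ?_⟩
    · intro hb hbad
      rw [bad_one B h0 hs a, h1] at hbad
      subst hb; simp at hbad
    · intro hb hbad
      have e2 : 4 * a + 1 + 1 = 4 * a + 2 := by ring
      rw [e2] at hbad
      by_cases hp : a % 2 = 0
      · rw [bad_two_even B h0 hs a hp, h1] at hbad
        have : e = true := he.mpr hp
        subst this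
        cases s <;> simp at hb hbad
      · have hp' : a % 2 = 1 := by omega
        rw [bad_two_odd B h0 hs a hp', h1] at hbad
        have : e = false := by
          cases e with
          | false => rfl
          | true => exact absurd (he.mp rfl) hp
        subst this
        cases s <;> simp at hb hbad
    · intro hb hbad
      have e2 : 4 * a + 1 + 1 + 1 = 4 * a + 3 := by ring
      rw [e2, bad_three B h0 hs a, h1] at hbad
      cases s <;> simp at hb hbad
    · have e2 : 4 * a + 1 + 1 + 1 + 1 = 4 * (a + 1) := by ring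
      rw [e2]
      apply ih (a + 1) _ h2
      cases e with
      | false =>
        have : ¬ a % 2 = 0 := fun h => by simpa using he.mpr h
        simp; omega
      | true =>
        have := he.mp rfl
        simp; omega

include h0 hs in
lemma masks_sound (σ : Bool) (m : ℕ) (h : tm m = (if σ then 1 else -1)) :
    MsL B (4 * m) (masks σ) := by
  have key : ∀ k : ℕ, 1 ≤ k → SndL B (4 * (2 ^ k * m)) (mk3 (sgs σ k) true) := by
    intro k hk
    apply mk3_sound B h0 hs _ _ _ (sgs_sound σ k m h)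
    constructor
    · intro _
      obtain ⟨j, rfl⟩ : ∃ j, k = j + 1 := ⟨k - 1, by omega⟩
      have : 2 ^ (j + 1) * m = 2 * (2 ^ j * m) := by rw [pow_succ]; ring
      omega
    · intro _; rfl
  refine ⟨?_, ?_, ?_, ?_, ?_, trivial⟩
  · have := key 1 (by norm_num); convert this using 1; ring
  · have := key 2 (by norm_num); convert this using 1; ring
  · have := key 3 (by norm_num); convert this using 1; ring
  · have := key 4 (by norm_num); convert this using 1; ring
  · have := key 5 (by norm_num); convert this using 1; ring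

include h0 hs in
/-- the local statement away from the exceptional pattern -/
lemma local_one (m : ℕ) (hu : (u * B m) % 9 = 1)
    (hx : ¬ ((u * B (2 * m)) % 9 = 8 ∧ (u * B (4 * m)) % 9 = 1)) :
    ∃ i j, i ≤ 7 ∧ j / 2 ^ i = m ∧ Gd B u j := by
  obtain ⟨σ, hσ⟩ : ∃ σ : Bool, tm m = (if σ then 1 else -1) := by
    rcases tm_pm m with h | h
    · exact ⟨true, by simp [h]⟩
    · exact ⟨false, by simp [h]⟩
  have ht : top σ = true := by
    cases σ
    · exact top_false
    · exact top_true
  rw [top, List.all_eq_true] at ht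
  have h1 := ht ((u * B (2 * m)) % 9) (by rw [List.mem_range]; omega)
  rw [List.all_eq_true] at h1
  have h2 := h1 ((u * B (4 * m)) % 9) (by rw [List.mem_range]; omega)
  rw [Bool.or_eq_true, Bool.and_eq_true, beq_iff_eq, beq_iff_eq] at h2
  have h3 := h2.resolve_left hx
  have r0 : RowL B u m [1] := ⟨hu.symm, trivial⟩
  have r1 := stp_sound B hs u [1] m _ r0 rfl
  have e4 : 4 * m = 2 * (2 * m) := by ring
  have r2 := stp_sound B hs u _ (2 * m) _ r1 rfl
  rw [← e4] at r2
  have l2 : (stp ((u * B (4 * m)) % 9) (stp ((u * B (2 * m)) % 9) [1])).length = 4 := by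
    rw [stp_length, stp_length]; rfl
  rw [Bool.or_eq_true] at h3
  rcases h3 with h3 | h3
  · have hm : SndL B (4 * m) [false, σ, false, !σ] := by
      refine ⟨by simp, ?_, by simp, ?_, trivial⟩
      · intro hb hbad
        rw [bad_one B h0 hs m, hσ] at hbad
        subst hb; simp at hbad
      · intro hb hbad
        have e2 : 4 * m + 1 + 1 + 1 = 4 * m + 3 := by ring
        rw [e2, bad_three B h0 hs m, hσ] at hbad
        cases σ <;> simp at hb hbad
    obtain ⟨j, h4, h5, h6⟩ := hitL_sound B u _ _ _ hm r2 h3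
    rw [l2] at h5
    refine ⟨2, j, by norm_num, ?_, h6⟩
    norm_num; omega
  · obtain ⟨i, j, h4, h5, h6, h7⟩ := srch_sound B hs u _ _ _ (masks_sound B h0 hs σ m hσ) r2 h3
    rw [l2] at h6
    refine ⟨i + 2, j, by simp [masks] at h4; omega, ?_, h7⟩
    rw [Nat.div_eq_iff (by positivity)]
    have e5 : 2 ^ i * (4 * m) = m * 2 ^ (i + 2) := by rw [pow_add]; ring
    have e6 : 2 ^ i * (4 * m + 4) = (m + 1) * 2 ^ (i + 2) := by rw [pow_add]; ring
    rw [e5] at h5
    rw [e6] at h6
    have h8 : 0 < 2 ^ (i + 2) := by positivity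
    constructor
    · exact h5
    · have : (m + 1) * 2 ^ (i + 2) = m * 2 ^ (i + 2) + 2 ^ (i + 2) := by ring
      omega

end

lemma exists_inv (v : ℕ) (h : ¬ 3 ∣ v) : ∃ u, (u * v) % 9 = 1 := by
  have h1 : v % 9 = 1 ∨ v % 9 = 2 ∨ v % 9 = 4 ∨ v % 9 = 5 ∨ v % 9 = 7 ∨ v % 9 = 8 := by omega
  rcases h1 with h1 | h1 | h1 | h1 | h1 | h1
  · exact ⟨1, by omega⟩
  · exact ⟨5, by omega⟩
  · exact ⟨7, by omega⟩
  · exact ⟨2, by omega⟩
  · exact ⟨4, by omega⟩
  · exact ⟨8, by omega⟩

/-- `v` is 3 or 6 modulo 9 -/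
lemma gd_three (u v w : ℕ) (hu : (u * w) % 9 = 1) (h : (u * v) % 9 = 3 ∨ (u * v) % 9 = 6) :
    v % 9 = 3 ∨ v % 9 = 6 := by
  have h1 : (u * v) % 9 = ((u % 9) * (v % 9)) % 9 := Nat.mul_mod _ _ _
  have h2 : (u * w) % 9 = ((u % 9) * (w % 9)) % 9 := Nat.mul_mod _ _ _
  rw [h1] at h
  rw [h2] at hu
  have a1 : u % 9 < 9 := Nat.mod_lt _ (by norm_num)
  have a2 : v % 9 < 9 := Nat.mod_lt _ (by norm_num)
  have a3 : w % 9 < 9 := Nat.mod_lt _ (by norm_num)
  generalize u % 9 = x at *
  generalize v % 9 = y at *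
  generalize w % 9 = z at *
  interval_cases x <;> interval_cases y <;> omega

section
variable (B : ℕ → ℕ) (h0 : B 0 = 1) (hs : ∀ n, B (n + 1) = B n + B ((n + 1) / 2))
include h0 hs

/-- good place below each unit -/
lemma local_all (m : ℕ) (hm : 1 ≤ m) (h3 : ¬ 3 ∣ B m) :
    ∃ i j, i ≤ 7 ∧ (j / 2 ^ i = m ∨ j / 2 ^ i = 2 * m - 1) ∧ ¬ Bad (B j) ∧
      (B j % 9 = 3 ∨ B j % 9 = 6) := by
  obtain ⟨u, hu⟩ := exists_inv (B m) h3
  by_cases hx : (u * B (2 * m)) % 9 = 8 ∧ (u * B (4 * m)) % 9 = 1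
  · -- the exceptional pattern
    obtain ⟨k, rfl⟩ : ∃ k, m = k + 1 := ⟨m - 1, by omega⟩
    have e1 : 2 * (k + 1) - 1 = 2 * k + 1 := by omega
    have f1 : B (2 * (k + 1)) = B (2 * k + 1) + B (k + 1) := by
      have e : 2 * (k + 1) = 2 * k + 1 + 1 := by ring
      rw [e, hs]; congr 2; omega
    have f2 : B (4 * (k + 1)) = B (4 * k + 3) + B (2 * (k + 1)) := by
      have e : 4 * (k + 1) = 4 * k + 3 + 1 := by ring
      rw [e, hs]; congr 2; omega
    have f3 : B (4 * k + 3) = B (2 * (2 * k + 1)) + B (2 * k + 1) := by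
      have e : 4 * k + 3 = 2 * (2 * k + 1) + 1 := by ring
      rw [e, hs]; congr 2; omega
    rw [f2, f3, f1] at hx
    have g0 : ((u * B (2 * k + 1)) + u * B (k + 1)) % 9 = 8 := by rw [← mul_add]; exact hx.1
    have g1 : (u * B (2 * (2 * k + 1)) + u * B (2 * k + 1) + (u * B (2 * k + 1) + u * B (k + 1))) % 9 = 1 := by
      rw [← mul_add, ← mul_add, ← mul_add]; exact hx.2
    -- u * B(2k+1) = 7
    have g2 : (u * B (2 * k + 1)) % 9 = 7 := by omega
    have g3 : (u * B (2 * (2 * k + 1))) % 9 = 4 := by omega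
    -- multiplier 4 : 4*7 = 28 = 1, 4 * 4 = 16 = 7
    have k1 : ((4 * u) * B (2 * k + 1)) % 9 = 1 := by rw [mul_assoc]; omega
    have k2 : ((4 * u) * B (2 * (2 * k + 1))) % 9 = 7 := by rw [mul_assoc]; omega
    obtain ⟨i, j, hi, hj, hg1, hg2⟩ := local_one B h0 hs (4 * u) (2 * k + 1) k1
      (by rw [k2]; omega)
    exact ⟨i, j, hi, Or.inr (by rw [e1]; exact hj), hg1, gd_three _ _ _ k1 hg2⟩
  · obtain ⟨i, j, hi, hj, hg1, hg2⟩ := local_one B h0 hs u m hu hx
    exact ⟨i, j, hi, Or.inl hj, hg1, gd_three _ _ _ hu hg2⟩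

end

end Pool.Agent.Work.MP_9e6733_nt
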