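import Pool.Agent.Work.MP_9e6733_nt.Gap

/-! At least `2^r/(r+1)` of the `n < 2^r` have `B n` prime to 3. -/

namespace Pool.Agent.Work.MP_9e6733_nt

open Finset Classical

/-- number of non-persistent nodes below `X` -/
noncomputable def U (B : ℕ → ℕ) (r X : ℕ) : ℕ := ((range X).filter (fun n => ¬ P B r n)).card

section
variable (B : ℕ → ℕ) (h0 : B 0 = 1) (hs : ∀ n, B (n + 1) = B n + B ((n + 1) / 2))

/-- the heads -/
noncomputable def Hd (B : ℕ → ℕ) (r X : ℕ) : Finset ℕ :=
  (range (2 * X)).filter (fun n => P B r n ∧ ¬ P B (r + 1) (n / 2))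

include h0 hs

lemma head_prec (r X n : ℕ) (hn : n ∈ Hd B r X) (i : ℕ) (hi1 : 1 ≤ i) (hi : i ≤ r + 1) :
    r < n ∧ ¬ P B r (n - i) := by
  rw [Hd, mem_filter, mem_range] at hn
  obtain ⟨hX, hP, hQ⟩ := hn
  have h1 : r < n := gap_zero B h0 r n hP
  refine ⟨h1, fun hc => ?_⟩
  obtain ⟨m, rfl⟩ : ∃ m, n = m + 1 := ⟨n - 1, by omega⟩
  have h2 := head_left B h0 hs r m hP hQ
  apply h2
  have h3 : m + 1 - i + i = m + 1 := by omega
  have h4 := gap B r (m + 1 - i) i hc hi (by rw [h3]; exact hP) (i - 1) (by omega)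
  have h5 : m + 1 - i + (i - 1) = m := by omega
  rwa [h5] at h4

lemma heads_card (r X : ℕ) : (r + 1) * (Hd B r X).card ≤ U B r (2 * X) := by
  have h1 : ((Hd B r X) ×ˢ (range (r + 1))).card = (r + 1) * (Hd B r X).card := by
    rw [card_product, card_range, Nat.mul_comm]
  rw [← h1, U]
  apply Finset.card_le_card_of_injOn (fun p => p.1 - (p.2 + 1))
  · rintro ⟨n, i⟩ hp
    rw [Finset.mem_coe, mem_product, mem_range] at hp
    obtain ⟨hn, hi⟩ := hp
    simp only at hn hi
    have h2 := head_prec B h0 hs r X n hn (i + 1) (by omega) (by omega)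
    have h3 : n < 2 * X := by
      rw [Hd, mem_filter, mem_range] at hn; exact hn.1
    show n - (i + 1) ∈ _
    rw [Finset.mem_coe, mem_filter, mem_range]
    exact ⟨by omega, h2.2⟩
  · rintro ⟨n, i⟩ hp ⟨n', i'⟩ hp' heq
    rw [Finset.mem_coe, mem_product, mem_range] at hp hp'
    obtain ⟨hn, hi⟩ := hp
    obtain ⟨hn', hi'⟩ := hp'
    simp only at hn hi hn' hi' heq
    have hP : P B r n := by rw [Hd, mem_filter] at hn; exact hn.2.1
    have hP' : P B r n' := by rw [Hd, mem_filter] at hn'; exact hn'.2.1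
    have h2 := (head_prec B h0 hs r X n hn 1 (by omega) (by omega)).1
    have h2' := (head_prec B h0 hs r X n' hn' 1 (by omega) (by omega)).1
    rcases lt_trichotomy n n' with h | h | h
    · exfalso
      have h3 := (head_prec B h0 hs r X n' hn' (n' - n) (by omega) (by omega)).2
      have h4 : n' - (n' - n) = n := by omega
      rw [h4] at h3
      exact h3 hP
    · subst h
      have : i = i' := by omega
      rw [this]
    · exfalso
      have h3 := (head_prec B h0 hs r X n hn (n - n') (by omega) (by omega)).2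
      have h4 : n - (n - n') = n' := by omega
      rw [h4] at h3
      exact h3 hP'

omit h0 hs in
lemma card_half (Q : ℕ → Prop) [DecidablePred Q] (X : ℕ) :
    ((range (2 * X)).filter (fun n => Q (n / 2))).card = 2 * ((range X).filter Q).card := by
  induction X with
  | zero => simp
  | succ X ih =>
    have e : 2 * (X + 1) = 2 * X + 1 + 1 := by ring
    rw [e, Finset.range_add_one, Finset.filter_insert, Finset.range_add_one, Finset.filter_insert,
      Finset.range_add_one, Finset.filter_insert]
    have e1 : (2 * X + 1) / 2 = X := by omega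
    have e2 : (2 * X) / 2 = X := by omega
    rw [e1, e2]
    by_cases hq : Q X
    · rw [if_pos hq, if_pos hq, if_pos hq, card_insert_of_notMem, card_insert_of_notMem,
        card_insert_of_notMem, ih]
      · ring
      · simp
      · simp
      · simp
    · rw [if_neg hq, if_neg hq, if_neg hq, ih]

lemma U_step (r X : ℕ) : 2 * (r + 1) * U B (r + 1) X ≤ (r + 2) * U B r (2 * X) := by
  have h1 := heads_card B h0 hs r X
  have h2 : 2 * U B (r + 1) X = U B r (2 * X) + (Hd B r X).card := by
    rw [U, ← card_half (fun n => ¬ P B (r + 1) n), U, Hd, ← Finset.card_union_of_disjoint]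
    · congr 1
      ext n
      simp only [mem_filter, mem_range, mem_union]
      constructor
      · rintro ⟨hn, hq⟩
        by_cases hp : P B r n
        · right; exact ⟨hn, hp, hq⟩
        · left; exact ⟨hn, hp⟩
      · rintro (⟨hn, hp⟩ | ⟨hn, _, hq⟩)
        · refine ⟨hn, fun hc => hp ?_⟩
          rcases Nat.even_or_odd' n with ⟨k, rfl | rfl⟩
          · have : 2 * k / 2 = k := by omega
            rw [this] at hc
            exact P_even B h0 hs r k hc
          · have : (2 * k + 1) / 2 = k := by omega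
            rw [this] at hc
            exact P_odd B h0 hs r k hc
        · exact ⟨hn, hq⟩
    · rw [Finset.disjoint_left]
      intro n h3 h4
      rw [mem_filter] at h3 h4
      exact h3.2 h4.2.1
  nlinarith [h1, h2]

lemma U_tele (r i : ℕ) (hi : i ≤ r) : 2 ^ i * (r + 1 - i) ≤ (r + 1) * U B (r - i) (2 ^ i) := by
  induction i with
  | zero =>
    have : U B r 1 = 1 := by
      rw [U, Finset.range_one, Finset.filter_singleton, if_pos, card_singleton]
      intro h
      exact absurd (gap_zero B h0 r 0 h) (by omega)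
    simp [this]
  | succ i ih =>
    have h1 := ih (by omega)
    have h2 := U_step B h0 hs (r - (i + 1)) (2 ^ i)
    have e1 : r - (i + 1) + 1 = r - i := by omega
    have e2 : r - (i + 1) + 2 = r + 1 - i := by omega
    have e3 : 2 * 2 ^ i = 2 ^ (i + 1) := by ring
    rw [e1, e2, e3] at h2
    have e4 : r + 1 - (i + 1) = r - i := by omega
    rw [e4]
    -- h1 : 2^i (r+1-i) ≤ (r+1) u ; h2 : 2 (r-i) u ≤ (r+1-i) u'
    have hpos : 0 < r + 1 - i := by omega
    apply Nat.le_of_mul_le_mul_left _ hpos
    calc (r + 1 - i) * (2 ^ (i + 1) * (r - i)) = 2 * (r - i) * (2 ^ i * (r + 1 - i)) := by ring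
      _ ≤ 2 * (r - i) * ((r + 1) * U B (r - i) (2 ^ i)) := Nat.mul_le_mul_left _ h1
      _ = (r + 1) * (2 * (r - i) * U B (r - i) (2 ^ i)) := by ring
      _ ≤ (r + 1) * ((r + 1 - i) * U B (r - (i + 1)) (2 ^ (i + 1))) := Nat.mul_le_mul_left _ h2
      _ = (r + 1 - i) * ((r + 1) * U B (r - (i + 1)) (2 ^ (i + 1))) := by ring

lemma units_card (r : ℕ) :
    2 ^ r ≤ (r + 1) * ((range (2 ^ r)).filter (fun n => ¬ 3 ∣ B n)).card := by
  have h := U_tele B h0 hs r r le_rfl
  have e : r + 1 - r = 1 := by omega
  rw [e, Nat.mul_one, Nat.sub_self, U] at h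
  convert h using 4
  rename_i n
  rw [not_iff_not]
  constructor
  · intro h3 k hk
    have : k = 0 := by omega
    subst this
    rw [S_zero, ZMod.natCast_eq_zero_iff]; exact h3
  · intro h3
    have := h3 0 le_rfl
    rwa [S_zero, ZMod.natCast_eq_zero_iff] at this

end

end Pool.Agent.Work.MP_9e6733_nt
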