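import Pool.Agent.Work.MP_9e6733_nt.Cnt
import Pool.Agent.Work.MP_9e6733_nt.Units
import Pool.Agent.Work.MP_9e6733_nt.Sound

/-! The final count. -/

namespace Pool.Agent.Work.MP_9e6733_nt

open Finset

/-- sums of two squares -/
def S2 (m : ℕ) : Prop := ∃ a c : ℤ, (m : ℤ) = a ^ 2 + c ^ 2

lemma not_bad_of_S2 (m : ℕ) (h : S2 m) : ¬ Bad m := by
  obtain ⟨a, c, h⟩ := h
  have h1 : ((m : ℤ) : ZMod 16) = (a : ZMod 16) ^ 2 + (c : ZMod 16) ^ 2 := by
    rw [h]; push_cast; ring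
  have key : ∀ a c : ZMod 16, a ^ 2 + c ^ 2 ≠ 6 ∧ a ^ 2 + c ^ 2 ≠ 14 ∧ a ^ 2 + c ^ 2 ≠ 12 := by
    decide
  have h2 := key a c
  rw [← h1] at h2
  have h3 : ((m : ℤ) : ZMod 16) = ((m % 16 : ℕ) : ZMod 16) := by
    rw [ZMod.natCast_mod]; simp
  rw [h3] at h2
  intro hb
  have h4 : m % 16 = 6 ∨ m % 16 = 14 ∨ m % 16 = 12 := by
    unfold Bad at hb; omega
  rcases h4 with h4 | h4 | h4
  · rw [h4] at h2; exact h2.1 rfl
  · rw [h4] at h2; exact h2.2.1 rfl
  · rw [h4] at h2; exact h2.2.2 rfl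

lemma not_three_of_S2 (m : ℕ) (h : S2 m) : ¬ (m % 9 = 3 ∨ m % 9 = 6) := by
  obtain ⟨a, c, h⟩ := h
  have h1 : ((m : ℤ) : ZMod 9) = (a : ZMod 9) ^ 2 + (c : ZMod 9) ^ 2 := by
    rw [h]; push_cast; ring
  have key : ∀ a c : ZMod 9, a ^ 2 + c ^ 2 ≠ 3 ∧ a ^ 2 + c ^ 2 ≠ 6 := by
    decide
  have h2 := key a c
  rw [← h1] at h2
  have h3 : ((m : ℤ) : ZMod 9) = ((m % 9 : ℕ) : ZMod 9) := by
    rw [ZMod.natCast_mod]; simp
  rw [h3] at h2
  rintro (h4 | h4)
  · rw [h4] at h2; exact h2.1 rfl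
  · rw [h4] at h2; exact h2.2 rfl

/-- good indices below `N` -/
def GG (B : ℕ → ℕ) (N : ℕ) : Finset ℕ :=
  (range N).filter (fun j => ¬ Bad (B j) ∧ (B j % 9 = 3 ∨ B j % 9 = 6))

section
variable (B : ℕ → ℕ) (h0 : B 0 = 1) (hs : ∀ n, B (n + 1) = B n + B ((n + 1) / 2))
include h0 hs

lemma GG_low (r N : ℕ) (hN : 2 ^ (r + 8) ≤ N) :
    ((Ico 1 (2 ^ r)).filter (fun n => ¬ 3 ∣ B n)).card ≤ 16 * (GG B N).card := by
  classical
  have h1 : ∀ m : ℕ, ∃ t : ℕ × ℕ × Bool, (m ∈ (Ico 1 (2 ^ r)).filter (fun n => ¬ 3 ∣ B n)) →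
      (t ∈ (GG B N) ×ˢ ((range 8) ×ˢ (univ : Finset Bool)) ∧
        (if t.2.2 then (t.1 / 2 ^ t.2.1 + 1) / 2 else t.1 / 2 ^ t.2.1) = m) := by
    intro m
    by_cases hm : m ∈ (Ico 1 (2 ^ r)).filter (fun n => ¬ 3 ∣ B n)
    · have hm' := hm
      rw [mem_filter, mem_Ico] at hm'
      obtain ⟨i, j, hi, hj, hb, h9⟩ := local_all B h0 hs m hm'.1.1 hm'.2
      have hpow : 2 ^ i ≤ 2 ^ 7 := Nat.pow_le_pow_right (by norm_num) hi
      have hjN : j < N := by
        have h5 : j / 2 ^ i < 2 * 2 ^ r := by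
          rcases hj with h | h <;> omega
        have h6 : j < 2 * 2 ^ r * 2 ^ i := by
          rwa [Nat.div_lt_iff_lt_mul (by positivity)] at h5
        calc j < 2 * 2 ^ r * 2 ^ i := h6
          _ ≤ 2 * 2 ^ r * 2 ^ 7 := Nat.mul_le_mul_left _ hpow
          _ = 2 ^ (r + 8) := by rw [pow_add]; ring
          _ ≤ N := hN
      have hG : j ∈ GG B N := by
        rw [GG, mem_filter, mem_range]; exact ⟨hjN, hb, h9⟩
      rcases hj with h | h
      · refine ⟨(j, i, false), fun _ => ⟨?_, ?_⟩⟩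
        · simp only [mem_product, mem_range, mem_univ, and_true]; exact ⟨hG, by omega⟩
        · simpa using h
      · refine ⟨(j, i, true), fun _ => ⟨?_, ?_⟩⟩
        · simp only [mem_product, mem_range, mem_univ, and_true]; exact ⟨hG, by omega⟩
        · simp only [if_true]; rw [h]; omega
    · exact ⟨(0, 0, false), fun h => absurd h hm⟩
  choose f hf using h1
  have h2 : ((GG B N) ×ˢ ((range 8) ×ˢ (univ : Finset Bool))).card = 16 * (GG B N).card := by
    rw [card_product, card_product, card_range, card_univ, Fintype.card_bool]; ring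
  rw [← h2]
  apply Finset.card_le_card_of_injOn f
  · intro m hm
    exact (hf m hm).1
  · intro m hm m' hm' heq
    rw [← (hf m hm).2, ← (hf m' hm').2, heq]

lemma GG_low' (r N : ℕ) (hN : 2 ^ (r + 8) ≤ N) :
    2 ^ r ≤ (r + 1) * (1 + 16 * (GG B N).card) := by
  refine (units_card B h0 hs r).trans (Nat.mul_le_mul_left _ ?_)
  have h1 := GG_low B h0 hs r N hN
  have h2 : (range (2 ^ r)).filter (fun n => ¬ 3 ∣ B n) ⊆
      insert 0 ((Ico 1 (2 ^ r)).filter (fun n => ¬ 3 ∣ B n)) := by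
    intro n hn
    rw [mem_filter, mem_range] at hn
    rw [mem_insert, mem_filter, mem_Ico]
    rcases Nat.eq_zero_or_pos n with h | h
    · left; exact h
    · right; exact ⟨⟨h, hn.1⟩, hn.2⟩
  have h3 := Finset.card_le_card h2
  have h4 := Finset.card_insert_le 0 ((Ico 1 (2 ^ r)).filter (fun n => ¬ 3 ∣ B n))
  omega

/-- number of `n < N` with `B n` a sum of two squares -/
lemma count_le (N : ℕ) : {n : ℕ | n < N ∧ S2 (B n)}.ncard + (cB B N + (GG B N).card) ≤ N := by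
  classical
  have h1 : {n : ℕ | n < N ∧ S2 (B n)} ⊆
      (((range N).filter (fun n => ¬ Bad (B n)) \ GG B N : Finset ℕ) : Set ℕ) := by
    rintro n ⟨hn, h2⟩
    rw [mem_coe, mem_sdiff, mem_filter, mem_range, GG, mem_filter]
    exact ⟨⟨hn, not_bad_of_S2 _ h2⟩, fun h => not_three_of_S2 _ h2 h.2.2⟩
  have h2 := Set.ncard_le_ncard h1 (Finset.finite_toSet _)
  rw [Set.ncard_coe_finset] at h2
  have h3 : GG B N ⊆ (range N).filter (fun n => ¬ Bad (B n)) := by
    intro n hn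
    rw [GG, mem_filter] at hn
    rw [mem_filter]; exact ⟨hn.1, hn.2.1⟩
  have h4 := Finset.card_sdiff_add_card_eq_card h3
  have h5 : cB B N = ((range N).filter (fun n => Bad (B n))).card := by
    rw [cB, Finset.card_filter]; rfl
  have h6 := Finset.card_filter_add_card_filter_not (s := range N) (fun n => Bad (B n))
  rw [card_range] at h6
  omega

end

end Pool.Agent.Work.MP_9e6733_nt
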