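import Mathlib

/-! Runs of multiples of 3 among the binary partition numbers. -/

namespace Pool.Agent.Work.MP_9e6733_nt

open Finset

section
variable (B : ℕ → ℕ)

/-- iterated summatory functions modulo 3 -/
def S : ℕ → ℕ → ZMod 3
  | 0, n => (B n : ZMod 3)
  | k + 1, n => ∑ i ∈ range n, S k i

/-- the node `n` is zero and stays zero for `r` further doublings -/
def P (r n : ℕ) : Prop := ∀ k ≤ r, S B k n = 0

lemma S_zero (n : ℕ) : S B 0 n = (B n : ZMod 3) := rfl

lemma S_succ (k n : ℕ) : S B (k + 1) (n + 1) = S B (k + 1) n + S B k n := by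
  show ∑ i ∈ range (n + 1), S B k i = ∑ i ∈ range n, S B k i + S B k n
  rw [Finset.sum_range_succ]

lemma S_succ_zero (k : ℕ) : S B (k + 1) 0 = 0 := by
  show ∑ i ∈ range 0, S B k i = 0
  simp

lemma sum_S (k n : ℕ) : ∑ i ∈ range n, S B k i = S B (k + 1) n := rfl

/-- left triangle -/
lemma left_tri (r u : ℕ) (h : P B r u) (l : ℕ) : ∀ k, l ≤ k → k ≤ r → S B k (u + l) = 0 := by
  induction l with
  | zero => intro k _ hk; exact h k hk
  | succ l ih =>
    intro k hk hr
    obtain ⟨k, rfl⟩ : ∃ j, k = j + 1 := ⟨k - 1, by omega⟩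
    rw [← Nat.add_assoc, S_succ, ih (k + 1) (by omega) hr, ih k (by omega) (by omega), add_zero]

lemma left_tri_zero (l : ℕ) : ∀ k, l < k → S B k l = 0 := by
  induction l with
  | zero =>
    intro k hk
    obtain ⟨k, rfl⟩ : ∃ j, k = j + 1 := ⟨k - 1, by omega⟩
    exact S_succ_zero B k
  | succ l ih =>
    intro k hk
    obtain ⟨k, rfl⟩ : ∃ j, k = j + 1 := ⟨k - 1, by omega⟩
    rw [S_succ, ih (k + 1) (by omega), ih k (by omega), add_zero]

/-- one step to the left from a persistent node when the top entry vanishes -/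
lemma step_left (r n : ℕ) (h : P B r (n + 1)) (ht : S B r n = 0) : P B r n := by
  have key : ∀ j ≤ r, S B (r - j) n = 0 := by
    intro j
    induction j with
    | zero => intro _; simpa using ht
    | succ j ih =>
      intro hj
      have h1 := ih (by omega)
      have h2 := h (r - j) (by omega)
      have e : r - j = (r - (j + 1)) + 1 := by omega
      rw [e] at h1 h2
      rw [S_succ, h1, zero_add] at h2
      exact h2
  intro k hk
  have := key (r - k) (by omega)
  rwa [Nat.sub_sub_self hk] at this

lemma gap (r u h : ℕ) (hu : P B r u) (hh : h ≤ r + 1) (hv : P B r (u + h)) :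
    ∀ l ≤ h, P B r (u + l) := by
  induction h with
  | zero => intro l hl; have : l = 0 := by omega
            subst this; exact hu
  | succ h ih =>
    have h1 : P B r (u + h) := by
      apply step_left B r (u + h) hv
      exact left_tri B r u hu h r (by omega) le_rfl
    intro l hl
    rcases Nat.lt_or_ge l (h + 1) with h2 | h2
    · exact ih (by omega) h1 l (by omega)
    · have : l = h + 1 := by omega
      rw [this]; exact hv

lemma gap_zero (h0 : B 0 = 1) (r n : ℕ) (h : P B r n) : r < n := by
  by_contra hcon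
  rw [not_lt] at hcon
  have key : ∀ j ≤ n, P B r (n - j) := by
    intro j
    induction j with
    | zero => intro _; simpa using h
    | succ j ih =>
      intro hj
      have h1 := ih (by omega)
      have e : n - j = (n - (j + 1)) + 1 := by omega
      rw [e] at h1
      exact step_left B r _ h1 (left_tri_zero B _ r (by omega))
  have h1 := key n le_rfl 0 (by omega)
  rw [Nat.sub_self, S_zero, h0] at h1
  exact absurd h1 (by decide)

end

section
variable (B : ℕ → ℕ) (h0 : B 0 = 1) (hs : ∀ n, B (n + 1) = B n + B ((n + 1) / 2))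
include hs

lemma S0_odd (n : ℕ) : S B 0 (2 * n + 1) = S B 0 (2 * n) + S B 0 n := by
  simp only [S_zero]
  rw [hs]
  have : (2 * n + 1) / 2 = n := by omega
  rw [this]; push_cast; ring

include h0 in
lemma S0_even (n : ℕ) : S B 0 (2 * n) = 2 * S B 1 n + S B 0 n := by
  induction n with
  | zero => simp [S_succ_zero]
  | succ n ih =>
    have e : 2 * (n + 1) = 2 * n + 1 + 1 := by ring
    have h1 := S0_odd B hs n
    have h2 : S B 0 (2 * n + 1 + 1) = S B 0 (2 * n + 1) + S B 0 (n + 1) := by
      simp only [S_zero]
      rw [hs (2 * n + 1)]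
      have : (2 * n + 1 + 1) / 2 = n + 1 := by omega
      rw [this]; push_cast; ring
    rw [e, h2, h1, ih, S_succ]
    ring

lemma S_succ_odd (k n : ℕ) : S B (k + 1) (2 * n + 1) = S B (k + 1) (2 * n) + S B k (2 * n) :=
  S_succ B k (2 * n)

omit hs in
lemma sum_range_two_mul (f : ℕ → ZMod 3) (n : ℕ) :
    ∑ i ∈ range (2 * n), f i = ∑ j ∈ range n, (f (2 * j) + f (2 * j + 1)) := by
  induction n with
  | zero => simp
  | succ n ih =>
    have e : 2 * (n + 1) = 2 * n + 1 + 1 := by ring
    rw [e, Finset.sum_range_succ, Finset.sum_range_succ, ih, Finset.sum_range_succ]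
    ring

include h0 in
/-- the structure of the doubling map -/
lemma double (k : ℕ) : ∃ c : ℕ → ZMod 3, ∀ n,
    S B k (2 * n) = 2 ^ (k + 1) * S B (k + 1) n + ∑ i ∈ range (k + 1), c i * S B i n := by
  induction k using Nat.strong_induction_on with
  | _ k ih =>
    match k, ih with
    | 0, _ =>
      refine ⟨fun _ => 1, fun n => ?_⟩
      rw [S0_even B h0 hs]; simp
    | 1, _ =>
      refine ⟨fun i => if i = 1 then 3 else 0, fun n => ?_⟩
      show ∑ i ∈ range (2 * n), S B 0 i = _
      rw [sum_range_two_mul]
      have : ∀ j ∈ range n, S B 0 (2 * j) + S B 0 (2 * j + 1) = 4 * S B 1 j + 3 * S B 0 j := by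
        intro j _
        rw [S0_odd B hs, S0_even B h0 hs]; ring
      rw [Finset.sum_congr rfl this, Finset.sum_add_distrib, ← Finset.mul_sum, ← Finset.mul_sum,
        sum_S, sum_S]
      simp [Finset.sum_range_succ]
      norm_num
    | k + 2, ih =>
      obtain ⟨c1, h1⟩ := ih (k + 1) (by omega)
      obtain ⟨c2, h2⟩ := ih k (by omega)
      refine ⟨fun i => if i = 0 then 0 else (2 * c1 (i - 1) + (if i - 1 < k + 1 then c2 (i - 1) else 2 ^ (k + 1))),
        fun n => ?_⟩
      show ∑ i ∈ range (2 * n), S B (k + 1) i = _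
      rw [sum_range_two_mul]
      have : ∀ j ∈ range n, S B (k + 1) (2 * j) + S B (k + 1) (2 * j + 1) =
          2 * S B (k + 1) (2 * j) + S B k (2 * j) := by
        intro j _
        rw [S_succ_odd B hs]; ring
      rw [Finset.sum_congr rfl this]
      have h3 : ∀ j ∈ range n, 2 * S B (k + 1) (2 * j) + S B k (2 * j) =
          2 ^ (k + 3) * S B (k + 2) j + ∑ i ∈ range (k + 2),
            (2 * c1 i + (if i < k + 1 then c2 i else 2 ^ (k + 1))) * S B i j := by
        intro j _
        rw [h1, h2]
        simp only [add_mul, Finset.sum_add_distrib]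
        have e1 : ∑ i ∈ range (k + 2), (if i < k + 1 then c2 i else 2 ^ (k + 1)) * S B i j =
            ∑ i ∈ range (k + 1), c2 i * S B i j + 2 ^ (k + 1) * S B (k + 1) j := by
          rw [Finset.sum_range_succ _ (k + 1)]
          congr 1
          · apply Finset.sum_congr rfl
            intro i hi
            rw [if_pos (by simpa using hi)]
          · rw [if_neg (by omega)]
        rw [e1, mul_add, Finset.mul_sum]
        simp only [mul_assoc]
        ring
      rw [Finset.sum_congr rfl h3, Finset.sum_add_distrib, ← Finset.mul_sum, sum_S,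
        Finset.sum_comm]
      congr 1
      rw [Finset.sum_range_succ' _ (k + 2)]
      simp only [← Finset.mul_sum, sum_S]
      simp

include h0 in
lemma P_even (r n : ℕ) (h : P B (r + 1) n) : P B r (2 * n) := by
  intro k hk
  obtain ⟨c, hc⟩ := double B h0 hs k
  rw [hc, h (k + 1) (by omega), mul_zero, zero_add]
  apply Finset.sum_eq_zero
  intro i hi
  rw [h i (by simp at hi; omega), mul_zero]

include h0 in
lemma P_odd (r n : ℕ) (h : P B (r + 1) n) : P B r (2 * n + 1) := by
  have h1 := P_even B h0 hs r n h
  intro k hk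
  cases k with
  | zero => rw [S0_odd B hs, h1 0 (by omega), h 0 (by omega), add_zero]
  | succ k => rw [S_succ_odd B hs, h1 (k + 1) hk, h1 k (by omega), add_zero]

include h0 in
lemma P_back (r n : ℕ) (h : S B 0 n = 0) (h2 : P B r (2 * n)) : P B (r + 1) n := by
  intro k
  induction k using Nat.strong_induction_on with
  | _ k ih =>
    intro hk
    cases k with
    | zero => exact h
    | succ k =>
      obtain ⟨c, hc⟩ := double B h0 hs k
      have h3 := hc n
      rw [h2 k (by omega)] at h3
      have h4 : ∑ i ∈ range (k + 1), c i * S B i n = 0 := by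
        apply Finset.sum_eq_zero
        intro i hi
        rw [ih i (by simpa using hi) (by simp at hi; omega), mul_zero]
      rw [h4, add_zero] at h3
      have h5 : (2 : ZMod 3) ^ (k + 1) ≠ 0 := pow_ne_zero _ (by decide)
      have : Fact (Nat.Prime 3) := ⟨Nat.prime_three⟩
      rcases mul_eq_zero.mp h3.symm with h6 | h6
      · exact absurd h6 h5
      · exact h6

include h0 in
/-- a persistent node whose parent is not persistent has a non-persistent left neighbour -/
lemma head_left (r n : ℕ) (h1 : P B r (n + 1)) (h2 : ¬ P B (r + 1) ((n + 1) / 2)) : ¬ P B r n := by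
  intro h3
  apply h2
  have h4 : S B 0 ((n + 1) / 2) = 0 := by
    have e1 := h1 0 (by omega)
    have e2 := h3 0 (by omega)
    rw [S_zero] at e1 e2 ⊢
    rw [hs, Nat.cast_add, e2, zero_add] at e1
    exact e1
  apply P_back B h0 hs r _ h4
  rcases Nat.even_or_odd' (n + 1) with ⟨k, hk | hk⟩
  · have : (n + 1) / 2 = k := by omega
    rw [this, ← hk]; exact h1
  · have : (n + 1) / 2 = k := by omega
    have h5 : n = 2 * k := by omega
    rw [this, ← h5]; exact h3

end

end Pool.Agent.Work.MP_9e6733_nt
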