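import Mathlib

/-! The recursion of the binary partition function. -/

namespace Pool.Agent.Work.MP_9e6733_nt

open Multiset

/-- multisets of powers of two with sum `n` -/
def Pw (n : ℕ) : Set (Multiset ℕ) := {s | s.sum = n ∧ ∀ i ∈ s, ∃ a, i = 2 ^ a}

lemma Pw_finite (n : ℕ) : (Pw n).Finite := by
  have h : Pw n ⊆ Set.range (fun p : n.Partition => p.parts) := by
    rintro s ⟨hs, h2⟩
    refine ⟨⟨s, ?_, hs⟩, rfl⟩
    intro i hi
    obtain ⟨a, rfl⟩ := h2 i hi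
    positivity
  exact (Set.finite_range _).subset h

lemma card_eq (n : ℕ) :
    Nat.card {p : n.Partition // ∀ i ∈ p.parts, ∃ a, i = 2 ^ a} = (Pw n).ncard := by
  rw [← Nat.card_coe_set_eq]
  refine Nat.card_congr ⟨fun p => ⟨p.1.parts, p.1.parts_sum, p.2⟩,
    fun s => ⟨⟨s.1, ?_, s.2.1⟩, s.2.2⟩, ?_, ?_⟩
  · intro i hi
    obtain ⟨a, rfl⟩ := s.2.2 i hi
    positivity
  · intro p; rfl
  · intro s; rfl

lemma Pw_zero : Pw 0 = {0} := by
  ext s
  constructor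
  · rintro ⟨hs, h2⟩
    rw [Set.mem_singleton_iff, Multiset.eq_zero_iff_forall_notMem]
    intro i hi
    obtain ⟨a, rfl⟩ := h2 i hi
    have := Multiset.sum_eq_zero_iff.mp hs _ hi
    have h3 : 0 < 2 ^ a := by positivity
    omega
  · rintro rfl
    exact ⟨by simp, by simp⟩

lemma Pw_succ (n : ℕ) :
    Pw (n + 1) = (fun s => 1 ::ₘ s) '' Pw n ∪ {s ∈ Pw (n + 1) | 1 ∉ s} := by
  ext s
  constructor
  · rintro ⟨hs, h2⟩
    by_cases h1 : 1 ∈ s
    · left
      obtain ⟨t, rfl⟩ := Multiset.exists_cons_of_mem h1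
      refine ⟨t, ⟨?_, fun i hi => h2 i (Multiset.mem_cons_of_mem hi)⟩, rfl⟩
      rw [Multiset.sum_cons] at hs
      omega
    · right
      exact ⟨⟨hs, h2⟩, h1⟩
  · rintro (⟨t, ⟨ht, h2⟩, rfl⟩ | ⟨h, _⟩)
    · refine ⟨by simp [ht, Nat.add_comm], ?_⟩
      intro i hi
      rw [Multiset.mem_cons] at hi
      rcases hi with rfl | hi
      · exact ⟨0, by simp⟩
      · exact h2 i hi
    · exact h

lemma ncard_succ (n : ℕ) :
    (Pw (n + 1)).ncard = (Pw n).ncard + {s ∈ Pw (n + 1) | 1 ∉ s}.ncard := by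
  conv_lhs => rw [Pw_succ n]
  rw [Set.ncard_union_eq ?_ ((Pw_finite n).image _)
    ((Pw_finite (n + 1)).subset (fun s hs => hs.1))]
  · rw [Set.ncard_image_of_injective]
    intro s t h
    exact (Multiset.cons_inj_right 1).mp h
  · rw [Set.disjoint_left]
    rintro s ⟨t, _, rfl⟩ ⟨_, h⟩
    exact h (Multiset.mem_cons_self 1 t)

lemma even_of (s : Multiset ℕ) (h : ∀ i ∈ s, ∃ a, i = 2 ^ a) (h1 : 1 ∉ s) :
    ∃ t : Multiset ℕ, (∀ i ∈ t, ∃ a, i = 2 ^ a) ∧ s = t.map (fun i => 2 * i) := by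
  refine ⟨s.map (fun i => i / 2), ?_, ?_⟩
  · intro i hi
    rw [Multiset.mem_map] at hi
    obtain ⟨j, hj, rfl⟩ := hi
    obtain ⟨a, rfl⟩ := h j hj
    cases a with
    | zero => exact absurd hj (by simpa using h1)
    | succ a => exact ⟨a, by rw [pow_succ]; simp⟩
  · rw [Multiset.map_map]
    conv_lhs => rw [← Multiset.map_id' s]
    apply Multiset.map_congr rfl
    intro j hj
    obtain ⟨a, rfl⟩ := h j hj
    cases a with
    | zero => exact absurd hj (by simpa using h1)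
    | succ a => simp [pow_succ, Nat.mul_comm]

lemma sum_map_two (t : Multiset ℕ) : (t.map (fun i => 2 * i)).sum = 2 * t.sum := by
  rw [Multiset.sum_map_mul_left]; simp

lemma odd_empty (n : ℕ) : {s ∈ Pw (2 * n + 1) | 1 ∉ s} = ∅ := by
  rw [Set.eq_empty_iff_forall_notMem]
  rintro s ⟨⟨hs, h2⟩, h1⟩
  obtain ⟨t, _, rfl⟩ := even_of s h2 h1
  rw [sum_map_two] at hs
  omega

lemma even_image (n : ℕ) :
    {s ∈ Pw (2 * n) | 1 ∉ s} = (fun t : Multiset ℕ => t.map (fun i => 2 * i)) '' Pw n := by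
  ext s
  constructor
  · rintro ⟨⟨hs, h2⟩, h1⟩
    obtain ⟨t, ht, rfl⟩ := even_of s h2 h1
    rw [sum_map_two] at hs
    exact ⟨t, ⟨by omega, ht⟩, rfl⟩
  · rintro ⟨t, ⟨ht, h2⟩, rfl⟩
    refine ⟨⟨by simp only [sum_map_two]; omega, ?_⟩, ?_⟩
    · intro i hi
      rw [Multiset.mem_map] at hi
      obtain ⟨j, hj, rfl⟩ := hi
      obtain ⟨a, rfl⟩ := h2 j hj
      exact ⟨a + 1, by rw [pow_succ, Nat.mul_comm]⟩
    · intro hi
      rw [Multiset.mem_map] at hi
      obtain ⟨j, hj, h⟩ := hi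
      omega

lemma even_ncard (n : ℕ) : {s ∈ Pw (2 * n) | 1 ∉ s}.ncard = (Pw n).ncard := by
  rw [even_image, Set.ncard_image_of_injective]
  apply Multiset.map_injective
  intro a b h
  simp only at h
  omega

/-- the binary partition function -/
noncomputable def bb (n : ℕ) : ℕ := (Pw n).ncard

lemma bb_zero : bb 0 = 1 := by
  rw [bb, Pw_zero, Set.ncard_singleton]

lemma bb_odd (n : ℕ) : bb (2 * n + 1) = bb (2 * n) := by
  rw [bb, ncard_succ, odd_empty]
  simp [bb]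

lemma bb_even (n : ℕ) : bb (2 * n + 2) = bb (2 * n + 1) + bb (n + 1) := by
  have h := ncard_succ (2 * n + 1)
  have e : 2 * n + 1 + 1 = 2 * (n + 1) := by ring
  rw [e] at h
  rw [even_ncard] at h
  have e2 : 2 * n + 2 = 2 * (n + 1) := by ring
  rw [e2]
  exact h

/-- `BB n = b(2n)` -/
noncomputable def BB (n : ℕ) : ℕ := bb (2 * n)

lemma BB_zero : BB 0 = 1 := by simp [BB, bb_zero]

lemma bb_half (n : ℕ) : bb n = BB (n / 2) := by
  rcases Nat.even_or_odd' n with ⟨k, rfl | rfl⟩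
  · rw [BB]; congr 1; omega
  · rw [bb_odd, BB]; congr 1; omega

lemma BB_succ (n : ℕ) : BB (n + 1) = BB n + BB ((n + 1) / 2) := by
  rw [← bb_half, BB, BB, ← bb_odd n]
  have e : 2 * (n + 1) = 2 * n + 2 := by ring
  rw [e, bb_even]

end Pool.Agent.Work.MP_9e6733_nt
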