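import Pool.Agent.Work.MP_9e6733_nt.Two

/-! A finite search modulo 9. -/

namespace Pool.Agent.Work.MP_9e6733_nt

/-- next level of residues modulo 9 -/
def stp : ℕ → List ℕ → List ℕ
  | _, [] => []
  | c, [p] => [c, (c + p) % 9]
  | c, p :: q :: ps => c :: ((c + p) % 9) :: stp ((c + p + q) % 9) (q :: ps)

/-- is there an allowed place with residue 3 or 6 -/
def hitL : List Bool → List ℕ → Bool
  | true :: ms, v :: vs => (v == 3 || v == 6) || hitL ms vs
  | false :: ms, _ :: vs => hitL ms vs
  | _, _ => false

/-- the search -/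
def srch : List (List Bool) → List ℕ → Bool
  | [], _ => false
  | m :: ms, row => (List.range 9).all fun c => hitL m (stp c row) || srch ms (stp c row)

/-- signs -/
def sgs (σ : Bool) : ℕ → List Bool
  | 0 => [σ]
  | k + 1 => (sgs σ k).flatMap fun b => [b, !b]

/-- masks -/
def mk3 : List Bool → Bool → List Bool
  | [], _ => []
  | s :: ss, e => false :: s :: (if e then s else !s) :: (!s) :: mk3 ss (!e)

def masks (σ : Bool) : List (List Bool) :=
  [mk3 (sgs σ 1) true, mk3 (sgs σ 2) true, mk3 (sgs σ 3) true, mk3 (sgs σ 4) true,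
    mk3 (sgs σ 5) true]

def top (σ : Bool) : Bool :=
  (List.range 9).all fun c1 => (List.range 9).all fun c2 =>
    (c1 == 8 && c2 == 1) || (hitL [false, σ, false, !σ] (stp c2 (stp c1 [1])) ||
      srch (masks σ) (stp c2 (stp c1 [1])))

set_option maxRecDepth 100000 in
lemma top_true : top true = true := by decide +kernel

set_option maxRecDepth 100000 in
lemma top_false : top false = true := by decide +kernel

end Pool.Agent.Work.MP_9e6733_nt
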