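import Mathlib

/-! Binary partition numbers modulo 16 and the count of the 2-adically excluded indices. -/

namespace Pool.Agent.Work.MP_9e6733_nt

/-- sign of the Thue-Morse sequence -/
def tm (n : ℕ) : ℤ := if h : n = 0 then 1 else
  if n % 2 = 0 then tm (n / 2) else - tm (n / 2)
termination_by n
decreasing_by all_goals omega

lemma tm_zero : tm 0 = 1 := by rw [tm]; simp

lemma tm_even (n : ℕ) : tm (2 * n) = tm n := by
  rcases Nat.eq_zero_or_pos n with rfl | hn
  · rfl
  · conv_lhs => rw [tm]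
    rw [dif_neg (by omega), if_pos (by omega)]
    congr 1; omega

lemma tm_odd (n : ℕ) : tm (2 * n + 1) = - tm n := by
  conv_lhs => rw [tm]
  rw [dif_neg (by omega), if_neg (by omega)]
  congr 2; omega

lemma tm_pm (n : ℕ) : tm n = 1 ∨ tm n = -1 := by
  induction n using Nat.strong_induction_on with
  | _ n ih =>
    rcases Nat.eq_zero_or_pos n with rfl | hn
    · left; exact tm_zero
    · rcases Nat.even_or_odd' n with ⟨k, rfl | rfl⟩
      · rw [tm_even]; exact ih k (by omega)
      · rw [tm_odd]; rcases ih k (by omega) with h | h <;> rw [h] <;> simp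

section
variable (B : ℕ → ℕ) (h0 : B 0 = 1) (hs : ∀ n, B (n + 1) = B n + B ((n + 1) / 2))
include h0 hs

lemma B_odd (n : ℕ) : B (2 * n + 1) = B (2 * n) + B n := by
  rw [hs]; congr 2; omega

lemma B_even (n : ℕ) : B (2 * n + 2) = B (2 * n + 1) + B (n + 1) := by
  rw [hs]; congr 2; omega

lemma law (n : ℕ) : (1 ≤ n → ((B n : ℤ) - (tm n - tm (n - 1) + 4)) % 8 = 0) ∧
    ((B (2 * n + 1) : ℤ) - (2 * tm n + 8 * n)) % 16 = 0 := by
  induction n using Nat.strong_induction_on with
  | _ n ih =>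
    rcases Nat.eq_zero_or_pos n with rfl | hn
    · refine ⟨fun h => by omega, ?_⟩
      have h1 : B 1 = 2 := by have := hs 0; simp only [Nat.zero_add, h0] at this; simpa [h0] using this
      rw [tm_zero]; simp [h1]
    · have hA : ((B n : ℤ) - (tm n - tm (n - 1) + 4)) % 8 = 0 := by
        rcases Nat.even_or_odd' n with ⟨k, rfl | rfl⟩
        · -- n = 2k, k ≥ 1
          obtain ⟨j, rfl⟩ : ∃ j, k = j + 1 := ⟨k - 1, by omega⟩
          have e1 : 2 * (j + 1) - 1 = 2 * j + 1 := by omega
          have e2 : 2 * (j + 1) = 2 * j + 2 := by ring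
          have h1 := (ih (j + 1) (by omega)).1 (by omega)
          have h2 := (ih j (by omega)).2
          have h3 := B_even B h0 hs j
          rw [e1, tm_even, tm_odd]
          rw [e2, h3]
          simp only [Nat.add_sub_cancel] at h1
          push_cast
          push_cast at h2
          rcases tm_pm j with h | h <;> rcases tm_pm (j + 1) with h' | h' <;>
            rw [h] at h1 h2 ⊢ <;> rw [h'] at h1 ⊢ <;> omega
        · -- n = 2k+1
          have h2 := (ih k (by omega)).2
          rw [tm_odd]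
          have e : 2 * k + 1 - 1 = 2 * k := by omega
          rw [e, tm_even]
          rcases tm_pm k with h | h <;> rw [h] at h2 ⊢ <;> omega
      refine ⟨fun _ => hA, ?_⟩
      obtain ⟨j, rfl⟩ : ∃ j, n = j + 1 := ⟨n - 1, by omega⟩
      have h2 := (ih j (by omega)).2
      have h3 := B_even B h0 hs j
      have h4 := B_odd B h0 hs (j + 1)
      have e2 : 2 * (j + 1) = 2 * j + 2 := by ring
      rw [e2] at h4 ⊢
      rw [h4, h3]
      simp only [Nat.add_sub_cancel] at hA
      push_cast at *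
      rcases tm_pm j with h | h <;> rcases tm_pm (j + 1) with h' | h' <;>
            rw [h] at hA h2 <;> rw [h'] at hA ⊢ <;> omega

lemma law_odd (n : ℕ) : ((B (2 * n + 1) : ℤ) - (2 * tm n + 8 * n)) % 16 = 0 :=
  (law B h0 hs n).2

lemma law_two (n : ℕ) : ((B (4 * n + 2) : ℤ) - (4 * tm n + 8 * n)) % 16 = 0 := by
  have h1 := law_odd B h0 hs (2 * n)
  have h2 := law_odd B h0 hs n
  have h3 := B_even B h0 hs (2 * n)
  have e1 : 2 * (2 * n) + 2 = 4 * n + 2 := by ring
  rw [e1] at h3
  rw [h3]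
  rw [tm_even] at h1
  push_cast at *
  omega

lemma law_four (n : ℕ) (hn : 1 ≤ n) : ((B (4 * n) : ℤ) - (B n + 8 * n)) % 16 = 0 := by
  obtain ⟨j, rfl⟩ : ∃ j, n = j + 1 := ⟨n - 1, by omega⟩
  have h1 := law_odd B h0 hs (2 * j + 1)
  have h2 := law_odd B h0 hs j
  have h3 := B_even B h0 hs (2 * j + 1)
  have h4 := B_even B h0 hs j
  have e1 : 2 * (2 * j + 1) + 2 = 4 * (j + 1) := by ring
  have e2 : 2 * j + 1 + 1 = 2 * j + 2 := by ring
  rw [e1, e2] at h3
  rw [h3, h4]
  rw [tm_odd] at h1
  push_cast at *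
  omega

end

/-- the 2-adic obstruction -/
def Bad (v : ℕ) : Prop := v % 8 = 6 ∨ v % 16 = 12

instance (v : ℕ) : Decidable (Bad v) := by unfold Bad; infer_instance

section
variable (B : ℕ → ℕ) (h0 : B 0 = 1) (hs : ∀ n, B (n + 1) = B n + B ((n + 1) / 2))
include h0 hs

lemma bad_one (i : ℕ) : Bad (B (4 * i + 1)) ↔ tm i = -1 := by
  have h := law_odd B h0 hs (2 * i)
  have e : 2 * (2 * i) + 1 = 4 * i + 1 := by ring
  rw [e, tm_even] at h
  unfold Bad
  push_cast at h
  rcases tm_pm i with h' | h' <;> rw [h'] at h ⊢ <;> constructor <;> intro h2 <;> omega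

lemma bad_three (i : ℕ) : Bad (B (4 * i + 3)) ↔ tm i = 1 := by
  have h := law_odd B h0 hs (2 * i + 1)
  have e : 2 * (2 * i + 1) + 1 = 4 * i + 3 := by ring
  rw [e, tm_odd] at h
  unfold Bad
  push_cast at h
  rcases tm_pm i with h' | h' <;> rw [h'] at h ⊢ <;> constructor <;> intro h2 <;> omega

lemma bad_two_even (i : ℕ) (hi : i % 2 = 0) : Bad (B (4 * i + 2)) ↔ tm i = -1 := by
  have h := law_two B h0 hs i
  unfold Bad
  rcases tm_pm i with h' | h' <;> rw [h'] at h ⊢ <;> constructor <;> intro h2 <;> omega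

lemma bad_two_odd (i : ℕ) (hi : i % 2 = 1) : Bad (B (4 * i + 2)) ↔ tm i = 1 := by
  have h := law_two B h0 hs i
  unfold Bad
  rcases tm_pm i with h' | h' <;> rw [h'] at h ⊢ <;> constructor <;> intro h2 <;> omega

lemma bad_four (i : ℕ) (hi : 1 ≤ i) : Bad (B (4 * i)) ↔ Bad (B i) := by
  have h := law_four B h0 hs i hi
  unfold Bad
  rcases Nat.even_or_odd' i with ⟨k, hk | hk⟩
  · constructor <;> intro h2 <;> omega
  · have h1 := law_odd B h0 hs k
    rw [← hk] at h1
    rcases tm_pm k with h' | h' <;> rw [h'] at h1 <;> constructor <;> intro h2 <;> omega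

end

end Pool.Agent.Work.MP_9e6733_nt
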